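import Mathlib

open Finset

namespace Pool.Agent.Results.MP_025f5d_nt.Fails

def Cg (p m : ℕ) (u v : ℚ) : Prop := (p : ℤ) ^ m ∣ (u - v).num

def P : ℕ → ℕ
  | 0 => 0
  | 1 => 1
  | n + 2 => 2 * P (n + 1) + P n

def S1 (p : ℕ) : ℚ := ∑ k ∈ range p, (P k : ℚ) / (-8) ^ k * ((2 * k).choose k : ℚ) ^ 2
def S2 (p : ℕ) : ℚ := ∑ k ∈ range p, (k * P k : ℚ) / (-8) ^ k * ((2 * k).choose k : ℚ) ^ 2

theorem result : ¬ ∀ p : ℕ, p.Prime → 3 < p → (p % 8 = 1 ∨ p % 8 = 3) →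
    ∀ x y : ℤ, (p : ℤ) = x ^ 2 + 2 * y ^ 2 → (x % 8 = 1 ∨ x % 8 = 3) →
      ((p % 8 = 1 → Cg p 2 (S1 p) 0) ∧
        (p % 8 = 3 → Cg p 2 (S1 p) ((-1) ^ ((p - 3) / 8) * (p / (2 * x) - 2 * x)))) ∧
      Cg p 2 (S2 p) ((-1) ^ ((x + 1) / 2) / 2 * (x + p / (2 * x))) := by
  intro h
  have h1 := (h 11 (by norm_num) (by norm_num) (by norm_num) 3 1 (by norm_num) (by norm_num)).2
  revert h1
  simp only [Cg, S2, Nat.choose_eq_descFactorial_div_factorial]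
  decide +kernel

end Pool.Agent.Results.MP_025f5d_nt.Fails
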